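import Pool.Agent.W488.IX.Stm

/-! IX-JW: partial derivatives of `fX`. -/

set_option autoImplicit false

namespace Pool.Agent.W699.IX.Jw

open MeasureTheory Set Filter Topology
open Pool.Agent.W488.IW Pool.Agent.W488.IX

section basics

variable {α C : ℝ} {κ : ℝ → ℝ}

theorem intg (h : Kap α C κ) (a b : ℝ) :
    IntervalIntegrable (fun s => κ s / s) volume a b := by
  have h1 : IntervalIntegrable (fun s : ℝ => C * |s| ^ (α - 1)) volume a b := by
    have h0 := h.a0
    have hr : ∀ a b : ℝ, IntervalIntegrable (fun s : ℝ => |s| ^ (α - 1)) volume a b := by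
      have hpos : ∀ c : ℝ, 0 ≤ c → IntervalIntegrable (fun s : ℝ => |s| ^ (α - 1)) volume 0 c := by
        intro c hc
        have := intervalIntegral.intervalIntegrable_rpow' (a := 0) (b := c)
          (r := α - 1) (by linarith)
        refine this.congr ?_
        intro s hs
        rw [uIoc_of_le hc] at hs
        simp only
        rw [abs_of_pos hs.1]
      have hneg : ∀ c : ℝ, c ≤ 0 → IntervalIntegrable (fun s : ℝ => |s| ^ (α - 1)) volume 0 c := by
        intro c hc
        have h2 := (hpos (-c) (by linarith)).comp_mul_left (c := -1)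
        simp only [neg_mul, one_mul, abs_neg] at h2
        simpa using h2
      have hall : ∀ c : ℝ, IntervalIntegrable (fun s : ℝ => |s| ^ (α - 1)) volume 0 c := by
        intro c
        rcases le_total 0 c with hc | hc
        · exact hpos c hc
        · exact hneg c hc
      intro a b
      exact (hall a).symm.trans (hall b)
    exact (hr a b).const_mul C
  refine h1.mono_fun ?_ ?_
  · exact ((h.cont.measurable).div measurable_id).aestronglyMeasurable
  · refine Filter.Eventually.of_forall ?_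
    intro s
    simp only
    rcases le_or_gt s 0 with hs | hs
    · rw [h.neg s hs]; simp only [zero_div, norm_zero]; positivity
    · have hC := h.C1
      have hk := h.up s hs.le
      have hn := h.nn s
      rw [Real.norm_of_nonneg (div_nonneg hn hs.le),
        Real.norm_of_nonneg (by positivity), abs_of_pos hs, div_le_iff₀ hs]
      calc κ s ≤ C * s ^ α := hk
        _ = C * s ^ (α - 1) * s := by
          rw [mul_assoc, ← Real.rpow_add_one hs.ne']; ring_nf

theorem cont_hh1 (h : Kap α C κ) : Continuous (hh1 κ) :=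
  intervalIntegral.continuous_primitive (intg h) 0

theorem der_om1 (h : Kap α C κ) (t : ℝ) : HasDerivAt (om1 κ) (κ t) t :=
  intervalIntegral.integral_hasDerivAt_right (h.cont.intervalIntegrable _ _)
    (h.cont.stronglyMeasurableAtFilter _ _) h.cont.continuousAt

theorem cont_om1 (h : Kap α C κ) : Continuous (om1 κ) :=
  continuous_iff_continuousAt.2 fun t => (der_om1 h t).continuousAt

theorem der_om (h : Kap α C κ) (t : ℝ) : HasDerivAt (om κ) (om1 κ t) t :=
  intervalIntegral.integral_hasDerivAt_right ((cont_om1 h).intervalIntegrable _ _)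
    ((cont_om1 h).stronglyMeasurableAtFilter _ _) (cont_om1 h).continuousAt

theorem der_hh (h : Kap α C κ) (t : ℝ) : HasDerivAt (hh κ) (hh1 κ t) t :=
  intervalIntegral.integral_hasDerivAt_right ((cont_hh1 h).intervalIntegrable _ _)
    ((cont_hh1 h).stronglyMeasurableAtFilter _ _) (cont_hh1 h).continuousAt

theorem cont_hh (h : Kap α C κ) : Continuous (hh κ) :=
  continuous_iff_continuousAt.2 fun t => (der_hh h t).continuousAt

theorem der_hh1 (h : Kap α C κ) {t : ℝ} (ht : 0 < t) : HasDerivAt (hh1 κ) (κ t / t) t := by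
  refine intervalIntegral.integral_hasDerivAt_right (intg h _ _) ?_ ?_
  · exact ((h.cont.measurable).div measurable_id).stronglyMeasurable.stronglyMeasurableAtFilter
  · exact h.cont.continuousAt.div continuousAt_id ht.ne'

theorem eq_of_deriv {D : ℝ → ℝ} (hc : Continuous D) (h0 : D 0 = 0)
    (hd : ∀ t, 0 < t → HasDerivAt D 0 t) {t : ℝ} (ht : 0 ≤ t) : D t = 0 := by
  rcases ht.eq_or_lt with h | h
  · rw [← h]; exact h0
  · obtain ⟨c, hc1, hc2⟩ := exists_hasDerivAt_eq_slope D (fun _ => 0) h hc.continuousOn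
      (fun x hx => hd x hx.1)
    have : D t - D 0 = 0 := by
      have h3 : t - 0 ≠ 0 := by simpa using h.ne'
      field_simp at hc2
      linarith
    linarith

theorem idn (h : Kap α C κ) {t : ℝ} (ht : 0 ≤ t) : om1 κ t = t * hh1 κ t - hh κ t := by
  have h1 := eq_of_deriv (D := fun t => t * hh1 κ t - hh κ t - om1 κ t)
    (((continuous_id.mul (cont_hh1 h)).sub (cont_hh h)).sub (cont_om1 h))
    (by simp [om1, hh])
    (fun s hs => by
      have := (((hasDerivAt_id s).mul (der_hh1 h hs)).sub (der_hh h s)).sub (der_om1 h s)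
      refine this.congr_deriv ?_
      simp only [id]
      field_simp
      ring) ht
  linarith

theorem der_f2 (h : Kap α C κ) (x : ℝ) : HasDerivAt (f2 κ) (x * hh1 κ (2 * x)) x := by
  have hc : Continuous fun s : ℝ => s * hh1 κ (2 * s) :=
    continuous_id.mul ((cont_hh1 h).comp (continuous_const.mul continuous_id))
  exact intervalIntegral.integral_hasDerivAt_right (hc.intervalIntegrable _ _)
    (hc.stronglyMeasurableAtFilter _ _) hc.continuousAt

theorem der_g2 (h : Kap α C κ) (y : ℝ) :
    HasDerivAt (g2 κ) (hh κ (2 * y) - y * hh1 κ (2 * y)) y := by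
  have hc : Continuous fun s : ℝ => hh κ (2 * s) - s * hh1 κ (2 * s) :=
    ((cont_hh h).comp (continuous_const.mul continuous_id)).sub
      (continuous_id.mul ((cont_hh1 h).comp (continuous_const.mul continuous_id)))
  exact intervalIntegral.integral_hasDerivAt_right (hc.intervalIntegrable _ _)
    (hc.stronglyMeasurableAtFilter _ _) hc.continuousAt

theorem diag (h : Kap α C κ) {r : ℝ} (hr : 0 ≤ r) : f2 κ r - g2 κ r = om κ (2 * r) / 2 := by
  have hd : ∀ s : ℝ, HasDerivAt (fun r => f2 κ r - g2 κ r - om κ (2 * r) / 2)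
      (s * hh1 κ (2 * s) - (hh κ (2 * s) - s * hh1 κ (2 * s)) - om1 κ (2 * s)) s := by
    intro s
    have h2 : HasDerivAt (fun r : ℝ => 2 * r) 2 s := by
      simpa using (hasDerivAt_id s).const_mul (2 : ℝ)
    have h3 : HasDerivAt (fun r : ℝ => om κ (2 * r)) (om1 κ (2 * s) * 2) s :=
      (der_om h (2 * s)).comp s h2
    have := ((der_f2 h s).sub (der_g2 h s)).sub (h3.div_const 2)
    refine this.congr_deriv ?_
    ring
  have h1 := eq_of_deriv (D := fun r => f2 κ r - g2 κ r - om κ (2 * r) / 2)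
    (continuous_iff_continuousAt.2 fun s => (hd s).continuousAt)
    (by simp [f2, g2, om])
    (fun s hs => by
      have := hd s
      rw [idn h (by linarith : 0 ≤ 2 * s)] at this
      refine this.congr_deriv ?_
      ring) hr
  linarith

theorem der_A (h : Kap α C κ) (x y : ℝ) :
    HasFDerivAt (fun z : ℝ × ℝ => f2 κ z.1 - g2 κ z.2)
      (lin (x * hh1 κ (2 * x)) (y * hh1 κ (2 * y) - hh κ (2 * y))) (x, y) := by
  have h1 : HasFDerivAt (fun z : ℝ × ℝ => f2 κ z.1)
      ((x * hh1 κ (2 * x)) • ContinuousLinearMap.fst ℝ ℝ ℝ) (x, y) :=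
    HasDerivAt.comp_hasFDerivAt (x, y) (h₂ := f2 κ) (der_f2 h x) hasFDerivAt_fst
  have h2 : HasFDerivAt (fun z : ℝ × ℝ => g2 κ z.2)
      ((hh κ (2 * y) - y * hh1 κ (2 * y)) • ContinuousLinearMap.snd ℝ ℝ ℝ) (x, y) :=
    HasDerivAt.comp_hasFDerivAt (x, y) (h₂ := g2 κ) (der_g2 h y) hasFDerivAt_snd
  have := h1.sub h2
  refine this.congr_fderiv ?_
  unfold lin
  module

theorem der_fI (h : Kap α C κ) (x y : ℝ) (hxy : 0 ≤ x + y) :
    HasFDerivAt (fun z : ℝ × ℝ => fI κ z.1 z.2)
      (lin (x * hh1 κ (x + y)) (x * hh1 κ (x + y) - hh κ (x + y))) (x, y) := by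
  have hs : HasFDerivAt (fun z : ℝ × ℝ => z.1 + z.2)
      (ContinuousLinearMap.fst ℝ ℝ ℝ + ContinuousLinearMap.snd ℝ ℝ ℝ) (x, y) :=
    hasFDerivAt_fst.add hasFDerivAt_snd
  have hd : HasFDerivAt (fun z : ℝ × ℝ => z.1 - z.2)
      (ContinuousLinearMap.fst ℝ ℝ ℝ - ContinuousLinearMap.snd ℝ ℝ ℝ) (x, y) :=
    hasFDerivAt_fst.sub hasFDerivAt_snd
  have h1 : HasFDerivAt (fun z : ℝ × ℝ => hh κ (z.1 + z.2))
      ((hh1 κ (x + y)) • (ContinuousLinearMap.fst ℝ ℝ ℝ + ContinuousLinearMap.snd ℝ ℝ ℝ))
      (x, y) :=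
    HasDerivAt.comp_hasFDerivAt (x, y) (h₂ := hh κ) (der_hh h (x + y)) hs
  have h2 : HasFDerivAt (fun z : ℝ × ℝ => om κ (z.1 + z.2))
      ((om1 κ (x + y)) • (ContinuousLinearMap.fst ℝ ℝ ℝ + ContinuousLinearMap.snd ℝ ℝ ℝ))
      (x, y) :=
    HasDerivAt.comp_hasFDerivAt (x, y) (h₂ := om κ) (der_om h (x + y)) hs
  have h3 := (((hd.mul h1).add h2).const_mul (1 / 2 : ℝ))
  have h4 : (fun z : ℝ × ℝ => fI κ z.1 z.2)
      = fun z : ℝ × ℝ => (1 / 2 : ℝ) * ((z.1 - z.2) * hh κ (z.1 + z.2) + om κ (z.1 + z.2)) := by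
    funext z
    unfold fI
    ring
  rw [h4]
  refine h3.congr_fderiv ?_
  rw [idn h hxy]
  unfold lin
  simp only
  module

end basics

theorem main : S_JW := by
  intro α C κ h x y hx hy
  rcases lt_trichotomy y x with hlt | heq | hgt
  · have h1 := der_A h x y
    have e1 : Fx κ x y = x * hh1 κ (2 * x) := by
      unfold Fx; rw [max_eq_left hlt.le, two_mul]
    have e2 : Fy κ x y = y * hh1 κ (2 * y) - hh κ (2 * y) := by
      unfold Fy; rw [min_eq_right hlt.le, two_mul]
    rw [e1, e2]
    refine h1.congr_of_eventuallyEq ?_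
    have : ∀ᶠ z : ℝ × ℝ in 𝓝 (x, y), z.2 < z.1 :=
      (isOpen_lt continuous_snd continuous_fst).mem_nhds (by simpa using hlt)
    filter_upwards [this] with z hz
    unfold fX
    rw [if_pos hz]
  · subst heq
    have h1 := der_A h y y
    have h2 := der_fI h y y (by linarith)
    have e1 : Fx κ y y = y * hh1 κ (2 * y) := by
      unfold Fx; rw [max_self, two_mul]
    have e2 : Fy κ y y = y * hh1 κ (2 * y) - hh κ (2 * y) := by
      unfold Fy; rw [min_self, two_mul]
    rw [← two_mul] at h2
    rw [e1, e2]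
    have hv : f2 κ y - g2 κ y = fI κ y y := by
      rw [diag h hy.le]
      unfold fI
      rw [sub_self, zero_mul, zero_add, two_mul]
    have hA : HasFDerivWithinAt (fun z : ℝ × ℝ => fX κ z.1 z.2)
        (lin (y * hh1 κ (2 * y)) (y * hh1 κ (2 * y) - hh κ (2 * y)))
        {z : ℝ × ℝ | z.2 < z.1} (y, y) := by
      refine h1.hasFDerivWithinAt.congr ?_ ?_
      · intro z hz
        have hz' : z.2 < z.1 := hz
        simp only [fX]
        rw [if_pos hz']
      · simp only
        unfold fX
        rw [if_neg (lt_irrefl y), hv]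
    have hB : HasFDerivWithinAt (fun z : ℝ × ℝ => fX κ z.1 z.2)
        (lin (y * hh1 κ (2 * y)) (y * hh1 κ (2 * y) - hh κ (2 * y)))
        {z : ℝ × ℝ | z.2 < z.1}ᶜ (y, y) := by
      refine h2.hasFDerivWithinAt.congr ?_ ?_
      · intro z hz
        have hz' : ¬ z.2 < z.1 := hz
        simp only [fX]
        rw [if_neg hz']
      · simp only
        unfold fX
        rw [if_neg (lt_irrefl y)]
    have := hA.union hB
    rw [union_compl_self] at this
    exact hasFDerivWithinAt_univ.1 this
  · have h1 := der_fI h x y (by linarith)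
    have e1 : Fx κ x y = x * hh1 κ (x + y) := by
      unfold Fx; rw [max_eq_right hgt.le]
    have e2 : Fy κ x y = x * hh1 κ (x + y) - hh κ (x + y) := by
      unfold Fy; rw [min_eq_left hgt.le, add_comm y x]
    rw [e1, e2]
    refine h1.congr_of_eventuallyEq ?_
    have : ∀ᶠ z : ℝ × ℝ in 𝓝 (x, y), z.1 < z.2 :=
      (isOpen_lt continuous_fst continuous_snd).mem_nhds (by simpa using hgt)
    filter_upwards [this] with z hz
    unfold fX
    rw [if_neg (not_lt.2 hz.le)]

end Pool.Agent.W699.IX.Jw
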